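import Pool.Agent.helper65.T1.SpecN

/-!
# Project T1 (MP_07c750_an), block N: row NBT, one dyadic block of `t`
-/

set_option autoImplicit false

open MeasureTheory

namespace Pool.Agent.T1

theorem NBT_cont (N : ℕ) (U : Finset ℤ) (X : ℝ) : Continuous fun y : ℝ × ℝ => ‖NS N U X y.1 y.2‖ ^ 4 := by
  unfold NS Nex
  fun_prop

theorem NBT_w (θ T : ℝ) (hθ : 0 < θ) : Nw θ T = Real.sqrt θ / (128 * Real.sqrt T) := by
  unfold Nw
  rw [Real.sqrt_div hθ.le, div_div, mul_comm]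

theorem NBT_card (θ T : ℝ) (h0 : 0 < Nw θ T) (h1 : Nw θ T ≤ 1 / 2) : ((NMs θ T).card : ℝ) ≤ 1 / Nw θ T := by
  have h2 : 0 ≤ 1 / (4 * Nw θ T) := by positivity
  have h3 : 0 ≤ ⌊1 / (4 * Nw θ T)⌋ := Int.floor_nonneg.2 h2
  have h4 : ((⌊1 / (4 * Nw θ T)⌋ : ℤ) : ℝ) ≤ 1 / (4 * Nw θ T) := Int.floor_le _
  unfold NMs
  rw [Int.card_Icc]
  have h5 : ((⌊1 / (4 * Nw θ T)⌋ + 1 - -⌊1 / (4 * Nw θ T)⌋).toNat : ℝ) =
      2 * ((⌊1 / (4 * Nw θ T)⌋ : ℤ) : ℝ) + 1 := by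
    have h6 : ((⌊1 / (4 * Nw θ T)⌋ + 1 - -⌊1 / (4 * Nw θ T)⌋).toNat : ℤ) =
        2 * ⌊1 / (4 * Nw θ T)⌋ + 1 := by
      rw [Int.toNat_of_nonneg (by omega)]
      ring
    exact_mod_cast h6
  rw [h5]
  have h7 : 2 * (1 / (4 * Nw θ T)) = 1 / (2 * Nw θ T) := by
    field_simp
    norm_num
  have h8 : 1 ≤ 1 / (2 * Nw θ T) := by
    rw [le_div_iff₀ (by positivity)]
    linarith
  have h9 : 1 / Nw θ T = 1 / (2 * Nw θ T) + 1 / (2 * Nw θ T) := by
    field_simp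
    norm_num
  linarith

/-- the centres -/
theorem NBT_mem (θ T : ℝ) (h0 : 0 < Nw θ T) (m : ℤ) (hm : m ∈ NMs θ T) : |(m : ℝ) * Nw θ T| ≤ 1 / 4 := by
  unfold NMs at hm
  rw [Finset.mem_Icc] at hm
  have h4 : ((⌊1 / (4 * Nw θ T)⌋ : ℤ) : ℝ) ≤ 1 / (4 * Nw θ T) := Int.floor_le _
  have h5 : (m : ℝ) ≤ 1 / (4 * Nw θ T) := le_trans (by exact_mod_cast hm.2) h4
  have h6 : -(1 / (4 * Nw θ T)) ≤ (m : ℝ) := by
    have : ((-⌊1 / (4 * Nw θ T)⌋ : ℤ) : ℝ) ≤ (m : ℝ) := by exact_mod_cast hm.1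
    push_cast at this
    linarith
  rw [abs_mul, abs_of_pos h0]
  have h7 : |(m : ℝ)| ≤ 1 / (4 * Nw θ T) := abs_le.2 ⟨h6, h5⟩
  calc |(m : ℝ)| * Nw θ T ≤ 1 / (4 * Nw θ T) * Nw θ T := mul_le_mul_of_nonneg_right h7 h0.le
    _ = 1 / 4 := by field_simp

/-- the final computation; `T = s^2`, `θ = g^2` -/
theorem NBT_num (n s g u j L c S : ℝ) (hn : 1 ≤ n) (hs : 0 < s) (hg : 0 < g) (hg1 : g ≤ 1) (hu : 0 < u) (hj : 0 ≤ j)
    (hsn : s ^ 2 ≤ 4 * n) (hS : S ≤ 128 * s / g * (c * n ^ 3 * u * L)) (hS0 : 0 ≤ S)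
    (h : (g ^ 2 * u) ^ 4 * (j * (2 * (g ^ 2 / (1000 * s ^ 2))) * (2 * (g ^ 2 / 120))) ≤
      256 * (2 * n * (g ^ 2 / (1000 * s ^ 2)) + 2) * (2 / s ^ 2) * S) :
    j * u ^ 3 * (g ^ 2) ^ 7 * s ≤ 30000 * 2304 * 2 * 128 * c * n ^ 4 * L := by
  have hA : 256 * (2 * n * (g ^ 2 / (1000 * s ^ 2)) + 2) ≤ 2304 * (n / s ^ 2) := by
    have e1 : 2 * n * (g ^ 2 / (1000 * s ^ 2)) ≤ n / s ^ 2 := by
      rw [mul_div_assoc', div_le_div_iff₀ (by positivity) (by positivity)]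
      have : g ^ 2 ≤ 1 := by nlinarith
      have h3 : 0 < n * s ^ 2 := by positivity
      nlinarith
    have e2 : (1 : ℝ) ≤ 4 * (n / s ^ 2) := by
      rw [mul_div_assoc', le_div_iff₀ (by positivity)]
      linarith
    linarith
  have h1 : (g ^ 2 * u) ^ 4 * (j * (2 * (g ^ 2 / (1000 * s ^ 2))) * (2 * (g ^ 2 / 120))) ≤
      2304 * (n / s ^ 2) * (2 / s ^ 2) * (128 * s / g * (c * n ^ 3 * u * L)) := by
    refine h.trans ?_
    refine (mul_le_mul_of_nonneg_right (mul_le_mul_of_nonneg_right hA (by positivity)) hS0).trans ?_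
    exact mul_le_mul_of_nonneg_left hS (by positivity)
  have e1 : (g ^ 2 * u) ^ 4 * (j * (2 * (g ^ 2 / (1000 * s ^ 2))) * (2 * (g ^ 2 / 120))) =
      (j * u ^ 3 * g ^ 13 * s) * (u / (30000 * s ^ 3 * g)) := by
    field_simp
    ring
  have e2 : 2304 * (n / s ^ 2) * (2 / s ^ 2) * (128 * s / g * (c * n ^ 3 * u * L)) =
      (30000 * 2304 * 2 * 128 * c * n ^ 4 * L) * (u / (30000 * s ^ 3 * g)) := by
    field_simp
  rw [e1, e2] at h1
  have h2 : j * u ^ 3 * g ^ 13 * s ≤ 30000 * 2304 * 2 * 128 * c * n ^ 4 * L :=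
    le_of_mul_le_mul_right h1 (by positivity)
  refine le_trans ?_ h2
  have e3 : (g ^ 2) ^ 7 ≤ g ^ 13 := by
    have : (g ^ 2) ^ 7 = g ^ 13 * g := by ring
    rw [this]
    have : 0 < g ^ 13 := by positivity
    nlinarith
  have : 0 ≤ j * u ^ 3 := by positivity
  exact mul_le_mul_of_nonneg_right (mul_le_mul_of_nonneg_left e3 this) hs.le

theorem NBT_proof (hNM1 : NM1_stmt) (hNM2 : NM2_stmt) (hN4M : N4M_stmt) (hQDC : QDC_stmt) : NBT_stmt := by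
  obtain ⟨C1, hC1, h4⟩ := hN4M
  obtain ⟨C2, hC2, hQ⟩ := hQDC
  refine ⟨30000 * 2304 * 2 * 128 * (C1 * C2), by nlinarith, ?_⟩
  intro N U θ T J tj xj hN hU hθ hθ1 hθT hTN hJ
  have hn : (1 : ℝ) ≤ N := by exact_mod_cast hN
  have hL : 1 ≤ 1 + Real.log N := by
    have := Real.log_nonneg hn
    linarith
  have hT1 : 1 ≤ T := by nlinarith
  have hT : 0 < T := by linarith
  rcases Nat.eq_zero_or_pos U.card with hU0 | hU0
  · rw [hU0]
    have : (0 : ℝ) ≤ 30000 * 2304 * 2 * 128 * (C1 * C2) * N ^ 4 * (1 + Real.log N) := by positivity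
    simpa using this
  have hu : (0 : ℝ) < U.card := by exact_mod_cast hU0
  set s := Real.sqrt T with hs
  set g := Real.sqrt θ with hg
  have hs0 : 0 < s := Real.sqrt_pos.2 hT
  have hg0 : 0 < g := Real.sqrt_pos.2 hθ
  have hs2 : s ^ 2 = T := Real.sq_sqrt hT.le
  have hg2 : g ^ 2 = θ := Real.sq_sqrt hθ.le
  have hg1 : g ≤ 1 := by
    rw [hg, Real.sqrt_le_left (by norm_num)]
    simpa using hθ1
  have hs1 : 1 ≤ s := by
    rw [hs]
    exact Real.one_le_sqrt.2 hT1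
  have hw : Nw θ T = g / (128 * s) := NBT_w θ T hθ
  have hw0 : 0 < Nw θ T := by rw [hw]; positivity
  have hw1 : Nw θ T ≤ 1 / 2 := by
    rw [hw, div_le_div_iff₀ (by positivity) (by norm_num)]
    nlinarith
  have hH : Real.sqrt (θ * T) = g * s := by rw [Real.sqrt_mul hθ.le]
  have hH1 : 1 ≤ Real.sqrt (θ * T) := Real.one_le_sqrt.2 hθT
  have hHT : Real.sqrt (θ * T) ≤ 3 * T := by
    rw [hH, ← hs2]
    nlinarith
  have hr : 0 < θ / (1000 * T) := by positivity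
  have main := hNM2 J tj xj (θ / (1000 * T)) (θ / 120) T (Real.sqrt (θ * T)) (Nw θ T)
    (256 * (2 * N * (θ / (1000 * T)) + 2)) ((θ * U.card) ^ 4) (NMs θ T)
    (fun m t η => ‖NS N U (m * Nw θ T) t η‖ ^ 4) hr (by positivity) hT hw0 ?_ (by positivity) (by positivity)
    (fun m => NBT_cont N U _) (fun m t η => by positivity) ?_
    (hNM1 N U θ T J tj xj hN hU hθ hθ1 hθT hTN hJ)
  rotate_left
  · rw [hw, hH, ← hs2]
    have : 3 * s ^ 2 * (g / (128 * s)) = (3 / 128) * (g * s) := by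
      field_simp
    rw [this]
    have : 0 < g * s := by positivity
    linarith
  · intro j hj
    obtain ⟨_, _, _, h5, h6, _⟩ := hJ j hj
    constructor <;> linarith
  set S := ∑ m ∈ NMs θ T, ∫ t in (-(3 * T))..(3 * T), ∫ η in (-Real.sqrt (θ * T))..Real.sqrt (θ * T),
    ‖NS N U (m * Nw θ T) t η‖ ^ 4 with hSdef
  have hS0 : 0 ≤ S := by
    apply Finset.sum_nonneg
    intro m _
    apply intervalIntegral.integral_nonneg (by linarith)
    intro t _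
    apply intervalIntegral.integral_nonneg (by linarith)
    intro η _
    positivity
  have hS : S ≤ 128 * s / g * (C1 * C2 * (N : ℝ) ^ 3 * U.card * (1 + Real.log N)) := by
    have hb : ∀ m ∈ NMs θ T, (∫ t in (-(3 * T))..(3 * T), ∫ η in (-Real.sqrt (θ * T))..Real.sqrt (θ * T),
        ‖NS N U (m * Nw θ T) t η‖ ^ 4) ≤ C1 * C2 * (N : ℝ) ^ 3 * U.card * (1 + Real.log N) := by
      intro m hm
      have hX := NBT_mem θ T hw0 m hm
      have hI := h4 N U (m * Nw θ T) (3 * T) (Real.sqrt (θ * T)) (by linarith) (by linarith)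
      have hq := hQ N U (m * Nw θ T) (3 * T) (Real.sqrt (θ * T)) hN hU hX hH1 hHT (by linarith)
      refine hI.trans ?_
      have hpos : 0 ≤ C1 * (3 * T) * Real.sqrt (θ * T) := by positivity
      refine (mul_le_mul_of_nonneg_left hq hpos).trans (le_of_eq ?_)
      have hHne : Real.sqrt (θ * T) ≠ 0 := by linarith
      have hTne : T ≠ 0 := hT.ne'
      field_simp
    calc S ≤ ∑ m ∈ NMs θ T, C1 * C2 * (N : ℝ) ^ 3 * U.card * (1 + Real.log N) := Finset.sum_le_sum hb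
      _ = ((NMs θ T).card : ℝ) * (C1 * C2 * (N : ℝ) ^ 3 * U.card * (1 + Real.log N)) := by
        rw [Finset.sum_const, nsmul_eq_mul]
      _ ≤ (1 / Nw θ T) * (C1 * C2 * (N : ℝ) ^ 3 * U.card * (1 + Real.log N)) :=
        mul_le_mul_of_nonneg_right (NBT_card θ T hw0 hw1) (by positivity)
      _ = 128 * s / g * (C1 * C2 * (N : ℝ) ^ 3 * U.card * (1 + Real.log N)) := by
        rw [hw, one_div_div]
  have fin := NBT_num (N : ℝ) s g (U.card : ℝ) (J.card : ℝ) (1 + Real.log N) (C1 * C2) S hn hs0 hg0 hg1 hu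
    (Nat.cast_nonneg _) (by rw [hs2]; linarith) hS hS0 (by rw [hg2, hs2]; exact main)
  rw [hg2] at fin
  exact fin

end Pool.Agent.T1
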