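import Pool.Agent.helper47.T1.SpecE1
import Pool.Agent.helper64.MS.STB

/-!
# MP_07c750, project T1: row QST (squeezed and translated profiles)
-/

set_option autoImplicit false

open scoped MatrixGroups ContDiff Topology UpperHalfPlane ComplexConjugate
open UpperHalfPlane MeasureTheory Filter Set

namespace Pool.Agent.T1

open Pool.Agent.RS Pool.Agent.MS

theorem QST_nonneg {J : ℕ} {M : ℝ} {β : ℝ → ℝ} (h : SBM J M β) : 0 ≤ M :=
  (abs_nonneg _).trans (h.bd 0 (Nat.zero_le _) 0)

theorem QST_squeeze (β : ℝ → ℝ) (M T : ℝ) (h : SBM 4 M β) (hT : 0 ≤ T) :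
    SBM 4 (M * Real.exp (5 * T)) (st (-T) β) := by
  refine ⟨?_, fun j hj x => ?_⟩
  · refine STB_mono _ _ _ ?_ (STB_SB (1 / 4) (-T) β h.sb)
    have h1 : Real.exp (-T) ≤ 1 := Real.exp_le_one_iff.2 (by linarith)
    linarith
  · have h1 : st (-T) β = fun x => Real.exp (T / 2) * (fun y => β (Real.exp T * y)) x := by
      funext x
      unfold st
      rw [neg_neg]
      congr 2
      ring
    have h2 : ContDiff ℝ j β := h.sb.1.of_le (by exact_mod_cast le_top)
    rw [h1, iteratedDeriv_const_mul_field, iteratedDeriv_comp_const_mul h2]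
    simp only []
    rw [abs_mul, abs_mul, abs_of_pos (Real.exp_pos _), abs_of_pos (pow_pos (Real.exp_pos _) _), ← mul_assoc,
      ← Real.exp_nat_mul, ← Real.exp_add]
    have h3 := h.bd j hj (Real.exp T * x)
    have h4 : (j : ℝ) ≤ 4 := by exact_mod_cast hj
    have h5 : Real.exp (T / 2 + j * T) ≤ Real.exp (5 * T) := by
      apply Real.exp_le_exp.2
      nlinarith
    calc Real.exp (T / 2 + j * T) * |iteratedDeriv j β (Real.exp T * x)| ≤ Real.exp (5 * T) * M :=
          mul_le_mul h5 h3 (abs_nonneg _) (Real.exp_pos _).le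
      _ = M * Real.exp (5 * T) := mul_comm _ _

theorem QST_bounded (J : ℕ) (β : ℝ → ℝ) (h : SB (1 / 4) β) : ∃ M : ℝ, 1 ≤ M ∧ SBM J M β := by
  have h1 : ∀ j : ℕ, ∃ C : ℝ, 0 ≤ C ∧ ∀ x, |iteratedDeriv j β x| ≤ C := by
    intro j
    have hc : Continuous (iteratedDeriv j β) :=
      ContDiff.continuous_iteratedDeriv j h.1 (by exact_mod_cast le_top)
    obtain ⟨C, hC⟩ := isCompact_Icc.exists_bound_of_continuousOn (s := Icc (-(1 / 4) : ℝ) (1 / 4)) hc.continuousOn
    refine ⟨max C 0, le_max_right _ _, fun x => ?_⟩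
    by_cases hx : x ∈ Icc (-(1 / 4) : ℝ) (1 / 4)
    · exact (hC x hx).trans (le_max_left _ _)
    · have hz : β =ᶠ[𝓝 x] fun _ => 0 := by
        have ho : (Icc (-(1 / 4) : ℝ) (1 / 4))ᶜ ∈ 𝓝 x := isClosed_Icc.isOpen_compl.mem_nhds hx
        filter_upwards [ho] with y hy
        by_contra hne
        exact hy (abs_le.1 (h.2 y hne))
      rw [hz.iteratedDeriv_eq j, iteratedDeriv_fun_const_zero, abs_zero]
      exact le_max_right _ _
  choose C hC0 hC using h1
  refine ⟨1 + ∑ j ∈ Finset.range (J + 1), C j, ?_, h, fun j hj x => ?_⟩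
  · have := Finset.sum_nonneg (s := Finset.range (J + 1)) (f := C) (fun j _ => hC0 j)
    linarith
  · have h2 : C j ≤ ∑ j ∈ Finset.range (J + 1), C j :=
      Finset.single_le_sum (f := C) (fun j _ => hC0 j) (Finset.mem_range.2 (by omega))
    have h3 := hC j x
    linarith

theorem QST_proof : QST_stmt := by
  refine ⟨fun β M T h hT => ⟨QST_squeeze β M T h hT, STB_int (-T) β⟩, fun α M δ h ha hδ => ?_, QST_bounded⟩
  have hsb : SB (1 / 4) (fun τ => α (τ - δ)) := by
    refine ⟨h.sb.1.comp (contDiff_id.sub contDiff_const), fun x hx => ?_⟩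
    have h1 := ha.1.2 _ hx
    have h2 : |x| ≤ |x - δ| + |δ| := by
      have := abs_add_le (x - δ) δ
      rwa [sub_add_cancel] at this
    linarith
  refine ⟨⟨hsb, fun j hj x => ?_⟩, hsb, fun x => ha.2.1 _, ?_⟩
  · rw [iteratedDeriv_comp_sub_const]
    exact h.bd j hj _
  · rw [integral_sub_right_eq_self (fun τ => α τ) δ]
    exact ha.2.2

end Pool.Agent.T1
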